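import Mathlib
import Pool.Agent.H87.LL.Cor

/-!
# The divisor bound for sets with few sums, with a loss linear in the doubling

Let `A_1, …, A_k` be finite sets of integers, `P_1, …, P_k` and `Q_1, …, Q_k` finite nonempty sets of
integers, `L = log (2 k)` and `0 < ε ≤ 1`. EVERY nonzero integer `x` has at most

`exp (exp (10^9 L / ε)) ∏ |P_i| ^ ε (|A_i + P_i| / |P_i|) ^ (64 L)`
`  (|P_i + Q_i| / √(|P_i| |Q_i|)) ^ (8000 L)`

factorisations `x = a_1 ⋯ a_k`, `a_i ∈ A_i`. For intervals this is the divisor bound; for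
`A_i = P_i = Q_i = A`, `|A + A| ≤ K |A|`, the number is `C(k, ε) |A| ^ ε K ^ (C k log (2 k))` with an
absolute constant `C`. The exponent of `K` does not depend on `ε`; the exponents known before are
`exp (C / ε)`. In the form without `ε` the bound is `exp (C k L log N / log log N)` times a power of
the doubling, as for the classical divisor function.

Consequences. `|A ^ k| ≥ c(k, ε) |A| ^ (k - ε - 10^5 k log (2 k) η)` if `E (A) ≥ |A| ^ (3 - η)`; and
every finite set `A` of integers is the disjoint union of a set `B` with small additive energies on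
all scales, `E_m (B) ≤ |A| ^ (2 m - 1 - j δ)` for `m ≥ 2 ^ j`, `j ≤ J`, and a set in which every
nonzero integer has at most `C |A| ^ (ε + 2 · 10^5 k log (2 k) δ)` factorisations with `k` factors.

**Proof.** Entropy. Let `r` be uniform on the set of factorisations of `x`. For a random integer `b`
put `Ψ(b, P, Q) = 16 (H (b + p) - log |P|) + 2000 (log |P + Q| - log |P| / 2 - log |Q| / 2) +
ε log |P|`, `p` uniform on `P`. A test, whether `q ^ f ∣ b`, with probability `θ` of the answer yes lowers
the infimum of `Ψ` over `P`, `Q` by at least `g(θ)` in the mean, where `g(θ) = θ` for `θ < 1/2` and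
`g(θ) = h(θ)`, the entropy of the test, for `θ ≥ 1/2`; for the finitely many small primes this holds
up to a bounded loss. If the answer is no, `P` and `Q` are kept; if it is yes, `P` is replaced by a
random residue class of `P` modulo `q ^ f` and `Q` by the best class. If the distribution of the
residues of `P` is spread and has bounded entropy, then the doubling goes down, by a discrete
Prékopa–Leindler inequality (Cauchy–Davenport in `ℤ / q ^ f`); if it is concentrated, the entropy of
`b + p` goes down. On the other hand a vector of natural numbers with a constant sum (the exponents of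
`q` in the factors of `x`) has entropy at most `4 log (2 k)` times the sum of the costs `g` of all
tests for its coordinates: a downward deviation from the popular exponents is charged fully, and
upward deviations occur only together with a downward one.
-/

set_option autoImplicit false

namespace Pool.Agent.Results.MP_120218_co.DivisorBoundLinearLoss

open Finset
open scoped Pointwise BigOperators

theorem result :
    -- (1) the divisor bound for sets with few sums
    (∀ k : ℕ, 1 ≤ k → ∀ ε : ℝ, 0 < ε → ε ≤ 1 → ∀ A P Q : Fin k → Finset ℤ,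
      (∀ i, (P i).Nonempty) → (∀ i, (Q i).Nonempty) → ∀ x : ℤ, x ≠ 0 →
        (((Fintype.piFinset A).filter fun f => ∏ i, f i = x).card : ℝ) ≤
          Real.exp (Real.exp (10 ^ 9 * Real.log (2 * k) / ε)) *
          ∏ i, (((P i).card : ℝ) ^ ε *
            (((A i + P i).card : ℝ) / (P i).card) ^ (64 * Real.log (2 * k)) *
            (((P i + Q i).card : ℝ) / √(((P i).card : ℝ) * (Q i).card)) ^
              (8000 * Real.log (2 * k)))) ∧
    -- (2) the same in the form of the classical divisor bound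
    (∀ k : ℕ, 1 ≤ k → ∀ N : ℝ, 16 ≤ N → ∀ A P Q : Fin k → Finset ℤ,
      (∀ i, (P i).Nonempty) → (∀ i, (Q i).Nonempty) → (∀ i, ((P i).card : ℝ) ≤ N) →
      ∀ x : ℤ, x ≠ 0 →
        (((Fintype.piFinset A).filter fun f => ∏ i, f i = x).card : ℝ) ≤
          Real.exp (4 * 10 ^ 9 * k * Real.log (2 * k) * (Real.log N / Real.log (Real.log N))) *
          ∏ i, ((((A i + P i).card : ℝ) / (P i).card) ^ (64 * Real.log (2 * k)) *
            (((P i + Q i).card : ℝ) / √(((P i).card : ℝ) * (Q i).card)) ^
              (8000 * Real.log (2 * k)))) ∧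
    -- (3) product sets and additive energies
    (∀ k : ℕ, 1 ≤ k → ∀ ε : ℝ, 0 < ε → ε ≤ 1 → ∃ c : ℝ, 0 < c ∧
      ∀ A : Fin k → Finset ℤ, (∀ i, ∃ a ∈ A i, a ≠ 0) →
        c * ∏ i, (((A i).card : ℝ) ^ (1 - ε) *
          (((A i).addEnergy (A i) : ℝ) / ((A i).card : ℝ) ^ 3) ^ (10 ^ 5 * Real.log (2 * k))) ≤
        ((∏ i, A i).card : ℝ)) ∧
    -- (4) `k`-fold products of one set
    (∀ k : ℕ, 1 ≤ k → ∀ ε : ℝ, 0 < ε → ∀ η : ℝ, ∃ c : ℝ, 0 < c ∧
      ∀ A : Finset ℤ, (∃ a ∈ A, a ≠ 0) → (A.card : ℝ) ^ (3 - η) ≤ (A.addEnergy A : ℝ) →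
        c * (A.card : ℝ) ^ ((k : ℝ) - ε - 10 ^ 5 * k * Real.log (2 * k) * η) ≤
          ((A ^ k).card : ℝ)) ∧
    -- (5) few additive coincidences on all scales, or few factorisations
    (∀ (J : ℕ) (δ : ℝ), 0 < δ → ∃ C : ℕ → ℝ → ℝ, (∀ k ε, 0 < C k ε) ∧
      ∀ A : Finset ℤ, ∃ B ⊆ A,
        (∀ j ≤ J, ∀ m : ℕ, 2 ^ j ≤ m →
          ((((Fintype.piFinset fun _ : Fin m => B) ×ˢ (Fintype.piFinset fun _ : Fin m => B)).filter
            fun p => ∑ i, p.1 i = ∑ i, p.2 i).card : ℝ) ≤
              (A.card : ℝ) ^ (2 * (m : ℝ) - 1 - j * δ)) ∧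
        ∀ k : ℕ, 1 ≤ k → ∀ ε : ℝ, 0 < ε → ε ≤ 1 → ∀ x : ℤ, x ≠ 0 →
          (((Fintype.piFinset fun _ : Fin k => A \ B).filter fun f => ∏ i, f i = x).card : ℝ) ≤
            C k ε * (A.card : ℝ) ^ (ε + 2 * 10 ^ 5 * k * Real.log (2 * k) * δ)) :=
  ⟨fun k hk ε hε hε1 A P Q hP hQ x hx =>
      Pool.Agent.H87.LL.divisor k hk ε hε hε1 A P Q hP hQ x hx,
    fun k hk N hN A P Q hP hQ hPN x hx =>
      Pool.Agent.H87.LL.divisor_opt k hk N hN A P Q hP hQ hPN x hx,
    fun k hk ε hε hε1 => Pool.Agent.H87.LL.energy_prod k hk ε hε hε1,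
    fun k hk ε hε η => Pool.Agent.H87.LL.energy_one k hk ε hε η,
    fun J δ hδ => Pool.Agent.H87.LL.decomposition J δ hδ⟩

end Pool.Agent.Results.MP_120218_co.DivisorBoundLinearLoss
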