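import Mathlib
import Pool.Agent.H64.ES.Final3
import Pool.Agent.H64.ES.Diff7
import Pool.Agent.H64.ES.Better2
import Pool.Agent.H64.SD.Trade

/-!
# Low-energy decomposition with savings `c log k`, different sets, and large `B_k` subsets

(1) For every `K` there is `C` such that every finite set `A` of nonzero integers is the disjoint
union of `B` and `A \ B`, and for ALL `1 ≤ k ≤ K` the `k`-fold additive energy of `B` is at most
`|A| ^ (2 k - 1 - log k / 10 ^ 6)` and the `k`-fold multiplicative energy of `A \ B` is at most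
`C |A| ^ (2 k - 1 - min (k / 11) (60 log k))`.
Known before (Mudgal): `C |A| ^ (2 k - c log k / log log k)` for both.

(2) A form with different orders, and for all subsets: `E_k(B) ≤ |A| ^ (2 k - 1 - j / 200000)` for
`k ≥ 2 ^ j`, `j ≤ J`, and the `m`-fold multiplicative energy of EVERY subset `S` of `A \ B`, for EVERY
`m`, is at most `C_m |S| ^ (2 m - log (m + 1) / 180) |A| ^ (log (m + 1) / 720)`.

(3) The multiplicative energy of sets `A_1, …, A_m` of nonzero integers with few sums: it is at most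
`∏ |A_i| ^ 2` times
`∏ (W_e |P_i| ^ e (|A_i + P_i| / |P_i|) ^ 16 (|P_i + Q_i| / √(|P_i| |Q_i|)) ^ 2000 / |A_i|)
  ^ (log (m + 1) / (180 m))`.

(4) The inequality behind it, for DEPENDENT random nonzero integers `x_1, …, x_m` with
`x_i + P_i ⊆ S_i`: the entropy of the product plus the total correlation is at least
`log (m + 1) / (60 m)` times the sum of
`H(x_i) - 16 log (|S_i| / |P_i|) - 2000 log (|P_i + Q_i| / √(|P_i| |Q_i|)) - e log |P_i| - W'_e`.

Let `s (k, t) = (t / 16) (1 + log (16 k / t))` and `L = 3 + log t`; `s` increases from about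
`log k` (`t = 1`) to `k` (`t = 16 k`).

(5) Different sets: for `0 < d ≤ 1`, `1 ≤ t ≤ 16 k` there is `C` such that for all finite nonempty sets
`A_1, …, A_k` of integers, of ANY sizes, with `X = ∏ |A_i|`, and all nonzero integers `u_i`:
`|u_1 A_1 + ⋯ + u_k A_k| ≥ X ^ ((1 + d log k / (6000 L)) / k)`, or for ALL integers `b_i` every `x ≠ 0`
has at most `C X ^ (1 - (1 - d) s (k, t) / k)` factorisations `x = a_1 ⋯ a_k`, `a_i ∈ A_i + b_i` (so
`|(A_1 + b_1) ⋯ (A_k + b_k)| ≥ X ^ ((1 - d) s (k, t) / k) / C` if `0 ∉ A_i + b_i`). The trivial bound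
for the number of sums is `X ^ (1 / k)`, so this says something for every `k ≥ 2`; for instance
(`t = 16 k`) `|u_1 A_1 + ⋯ + u_k A_k| ≥ X ^ ((1 + c d) / k)` or `|(A_1 + b_1) ⋯ (A_k + b_k)| ≥ c X ^ (1 - d)`.
For `A_i = A`: `|k A| ≥ |A| ^ (1 + d log k / (6000 L))` or `|A ^ k| ≥ c |A| ^ ((1 - d) s (k, t))`.
And if `|A_1 + ⋯ + A_k| < X ^ ((1 + d log k / (12000 L)) / k)` then there is a set `I` of indices with
`∏_{i ∈ I} |A_i| ≥ √X` such that for ALL `m ≥ t / 16`, all translates `B_1, …, B_m` of sets `A_i`,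
`i ∈ I`, every `x ≠ 0` has at most `C ^ s (m, t) ∏ |B_j| ^ (1 - (1 - d) s (m, t) / m)` factorisations
`x = b_1 ⋯ b_m`, `b_j ∈ B_j`.

(6) For `0 < d ≤ 1` and `1 ≤ t ≤ 16 k` every finite set `A` of nonzero integers has an additive `B_k`
subset of size at least `c |A| ^ ((1 + d log k / (10 ^ 5 L)) / (2 k - 1))` or a multiplicative
`B_k` subset of size at least `c |A| ^ ((1 - d) s (k, t) / (2 k))`. For bounded `t`
both exponents are at least `c' (log k) / k` (a question of Klurman and Pohoata; the order of the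
exponent known before is `log k / (k log log k)`, Mudgal; for small `k` the bound `c |A| ^ (1 / k)` of
Komlós, Sulyok and Szemerédi is better); for `d = 1 / 2`, `t = k ^ (c' / R)`, `1 ≤ R ≤ c'' log k`, the
first one is at least `R / (2 k - 1)` and the second one at least `k ^ (c' / R - 1) / 64`.

**Proof.** Induction over the primes `q` for arbitrary families of tuples. Let `V_i` be the valuation
of `x_i` at `q`, with `1 - η_i` the probability of its most likely value. By helper87's potential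
(`Pool.Agent.H87.LL.block`) the potential of `x_i` drops by at least the sum `G_i` of the costs of the
tests `q ^ f ∣ x_i`, and `H(V_i) - G_i ≤ 2 η_i (1 + log (1 / η_i))`. The chain rule reduces (4) to
`∑ η_i (1 + log (1 / η_i)) ≤ 30 (m / log (m + 1)) (H(∑ V_i) + ∑ H(V_i) - H(V_1, …, V_m))`, which is
proved with the Donsker–Varadhan formula, the inequality of Littlewood and Offord for the product of
the marginals if `∑ η_i` is large, and an exponential moment if `∑ η_i ≤ 1 / 2`. For (3), take for `x`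
the first half of a random pair of tuples with equal products. For (1) and (2), remove pieces with
few sums (Balog–Szemerédi–Gowers) as long as the additive energies are large; in (1) the bound for the
number of factorisations is the one of part (4) of `SumProductTradeoff` (helper87) with
`t = 16 min (k, 5792)`.  For (5), if `k = 2 ^ J` put
the sets at the leaves of a binary tree and the sums of the leaves below at the nodes; the average of
`log |T_v|` over the leaves below is monotone in the level, so at one of the levels it grows by at most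
`1 / J` of its whole growth `log |A_1 + ⋯ + A_k| - (log X) / k`, and the pointwise bound of
`SumProductTradeoff` (helper87) is used with `P_i`, `Q_i` the sums at the sibling and at the ancestor
of `A_i` at this level (translating `A_i` changes nothing); other `k` are covered by two windows of
`2 ^ J ≤ k` sets.  For (6), the number of the solutions of a
linear equation with nonzero coefficients in `2 j` elements of `B` is at most `E_j(B)` (Fourier
analysis), so by the decomposition a random subset of `B` (or of the elements of `A \ B` of one sign,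
which look like integers with addition) contains few relations, and deletion gives a `B_k` set.
-/

set_option autoImplicit false

namespace Pool.Agent.Results.MP_120218_co.LowEnergyLogExponent

open Finset
open scoped Pointwise BigOperators

/-- The entropy of `f r` when `r` is uniformly distributed in the finite set `R`. -/
noncomputable def entropy {ι κ : Type} [DecidableEq κ] (R : Finset ι) (f : ι → κ) : ℝ :=
  (∑ r ∈ R, Real.log ((R.card : ℝ) / ((R.filter fun r' => f r' = f r).card : ℝ))) / R.card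

/-- `S` is an additive `B_k` set: multisets of `k` elements of `S` with equal sums are equal. -/
def AddBk (k : ℕ) (S : Finset ℤ) : Prop :=
  ∀ s t : Multiset ℤ, s.card = k → t.card = k → (∀ a ∈ s, a ∈ S) → (∀ a ∈ t, a ∈ S) →
    s.sum = t.sum → s = t

/-- `S` is a multiplicative `B_k` set: multisets of `k` elements of `S` with equal products are
equal. -/
def MulBk (k : ℕ) (S : Finset ℤ) : Prop :=
  ∀ s t : Multiset ℤ, s.card = k → t.card = k → (∀ a ∈ s, a ∈ S) → (∀ a ∈ t, a ∈ S) →
    s.prod = t.prod → s = t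

/-- `s (k, t) = (t / 16) (1 + log (16 k / t))` -/
noncomputable def saving (k t : ℝ) : ℝ := t / 16 * (1 + Real.log (16 * k / t))

theorem tau_eq (k : ℕ) (hk : 1 ≤ k) (t : ℝ) : Pool.Agent.H87.PT.tau k t = saving k t / k := by
  have : (k : ℝ) ≠ 0 := by
    have : (1 : ℝ) ≤ k := by exact_mod_cast hk
    positivity
  unfold Pool.Agent.H87.PT.tau saving
  field_simp

theorem ktau_eq (k : ℕ) (hk : 1 ≤ k) (t : ℝ) :
    (k : ℝ) * Pool.Agent.H87.PT.tau k t = saving k t := by
  have : (k : ℝ) ≠ 0 := by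
    have : (1 : ℝ) ≤ k := by exact_mod_cast hk
    positivity
  rw [tau_eq k hk]
  field_simp

theorem result :
    -- (1) sums and products, all orders `k ≤ K` at once
    (∀ K : ℕ, ∃ C : ℝ, 0 < C ∧ ∀ A : Finset ℤ, (0 : ℤ) ∉ A → ∃ B ⊆ A, ∀ k : ℕ, 1 ≤ k → k ≤ K →
      ((((Fintype.piFinset fun _ : Fin k => B) ×ˢ (Fintype.piFinset fun _ : Fin k => B)).filter
          fun p => ∑ i, p.1 i = ∑ i, p.2 i).card : ℝ) ≤
        (A.card : ℝ) ^ (2 * (k : ℝ) - 1 - Real.log k / 10 ^ 6) ∧
      ((((Fintype.piFinset fun _ : Fin k => A \ B) ×ˢ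
          (Fintype.piFinset fun _ : Fin k => A \ B)).filter
          fun p => ∏ i, p.1 i = ∏ i, p.2 i).card : ℝ) ≤
        C * (A.card : ℝ) ^ (2 * (k : ℝ) - 1 - min ((k : ℝ) / 11) (60 * Real.log k))) ∧
    -- (2) the multiplicative energies of all subsets
    (∀ J : ℕ, ∃ C : ℕ → ℝ, (∀ m, 0 < C m) ∧ ∀ A : Finset ℤ, (0 : ℤ) ∉ A → ∃ B ⊆ A,
      (∀ j ≤ J, ∀ k : ℕ, 2 ^ j ≤ k →
        ((((Fintype.piFinset fun _ : Fin k => B) ×ˢ (Fintype.piFinset fun _ : Fin k => B)).filter
            fun p => ∑ i, p.1 i = ∑ i, p.2 i).card : ℝ) ≤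
          (A.card : ℝ) ^ (2 * (k : ℝ) - 1 - j / (2 * 10 ^ 5))) ∧
      ∀ S ⊆ A \ B, ∀ m : ℕ, 1 ≤ m →
        ((((Fintype.piFinset fun _ : Fin m => S) ×ˢ (Fintype.piFinset fun _ : Fin m => S)).filter
            fun p => ∏ i, p.1 i = ∏ i, p.2 i).card : ℝ) ≤
          C m * (S.card : ℝ) ^ (2 * (m : ℝ) - Real.log (m + 1) / 180) *
            (A.card : ℝ) ^ (Real.log (m + 1) / 720)) ∧
    -- (3) multiplicative energies of sets with few sums
    (∀ m : ℕ, 1 ≤ m → ∀ e : ℝ, 0 < e → e ≤ 1 → ∀ A P Q : Fin m → Finset ℤ,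
      (∀ i, (A i).Nonempty) → (∀ i, (0 : ℤ) ∉ A i) → (∀ i, (P i).Nonempty) →
      (∀ i, (Q i).Nonempty) →
        (((Fintype.piFinset A ×ˢ Fintype.piFinset A).filter
          fun p => ∏ i, p.1 i = ∏ i, p.2 i).card : ℝ) ≤
        (∏ i, ((A i).card : ℝ) ^ 2) *
          ∏ i, ((Real.exp (Real.exp (10 ^ 9 / e)) * ((P i).card : ℝ) ^ e *
            (((A i + P i).card : ℝ) / (P i).card) ^ 16 *
            (((P i + Q i).card : ℝ) / √(((P i).card : ℝ) * (Q i).card)) ^ 2000) /
              ((A i).card : ℝ)) ^ (Real.log (m + 1) / (180 * m))) ∧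
    -- (4) products of dependent random integers
    (∀ (ι : Type) (m : ℕ), 1 ≤ m → ∀ e : ℝ, 0 < e → e ≤ 1 → ∀ R : Finset ι, R.Nonempty →
      ∀ x : ι → Fin m → ℤ, (∀ r ∈ R, ∀ i, x r i ≠ 0) → ∀ P Q S : Fin m → Finset ℤ,
      (∀ i, (P i).Nonempty) → (∀ i, (Q i).Nonempty) →
      (∀ r ∈ R, ∀ i, ∀ p ∈ P i, x r i + p ∈ S i) →
        Real.log (m + 1) / (60 * m) * ∑ i, (entropy R (fun r => x r i) -
          16 * Real.log (((S i).card : ℝ) / (P i).card) -
          2000 * Real.log (((P i + Q i).card : ℝ) / √(((P i).card : ℝ) * (Q i).card)) -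
          e * Real.log ((P i).card : ℝ) - Real.exp (10 ^ 9 / e)) ≤
        entropy R (fun r => ∏ i, x r i) + ∑ i, entropy R (fun r => x r i) - entropy R x) ∧
    -- (5) sums of dilates of different sets, factorisations in the product of translates
    (∀ k : ℕ, 1 ≤ k → ∀ d : ℝ, 0 < d → d ≤ 1 → ∀ t : ℝ, 1 ≤ t → t ≤ 16 * k → ∃ C : ℝ, 0 < C ∧
      ∀ A : Fin k → Finset ℤ, (∀ i, (A i).Nonempty) → ∀ u : Fin k → ℤ, (∀ i, u i ≠ 0) →
        (∏ i, ((A i).card : ℝ)) ^ ((1 + d * Real.log k / (6000 * (3 + Real.log t))) / k) ≤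
          (((Fintype.piFinset A).image fun f => ∑ i, u i * f i).card : ℝ) ∨
        ∀ (b : Fin k → ℤ) (x : ℤ), x ≠ 0 →
          (((Fintype.piFinset A).filter fun f => ∏ i, (f i + b i) = x).card : ℝ) ≤
            C * (∏ i, ((A i).card : ℝ)) ^ (1 - (1 - d) * saving k t / k)) ∧
    -- (5) few sums: factorisations in the products of any number of translates of half of the sets
    (∀ k : ℕ, 1 ≤ k → ∀ d : ℝ, 0 < d → d ≤ 1 → ∀ t : ℝ, 1 ≤ t → ∃ C : ℝ, 1 ≤ C ∧
      ∀ A : Fin k → Finset ℤ, (∀ i, (A i).Nonempty) →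
        (∏ i, ((A i).card : ℝ)) ^ ((1 + d * Real.log k / (12000 * (3 + Real.log t))) / k) ≤
          (((Fintype.piFinset A).image fun f => ∑ i, f i).card : ℝ) ∨
        ∃ I : Finset (Fin k), (∏ i, ((A i).card : ℝ)) ≤ (∏ i ∈ I, ((A i).card : ℝ)) ^ 2 ∧
          ∀ m : ℕ, 1 ≤ m → t ≤ 16 * m → ∀ (i : Fin m → Fin k) (b : Fin m → ℤ), (∀ j, i j ∈ I) →
            ∀ x : ℤ, x ≠ 0 →
              (((Fintype.piFinset fun j => A (i j)).filter fun f =>
                ∏ j, (f j + b j) = x).card : ℝ) ≤
                C ^ saving m t *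
                  (∏ j, ((A (i j)).card : ℝ)) ^ (1 - (1 - d) * saving m t / m)) ∧
    -- (6) additive or multiplicative `B_k` subsets
    (∀ k : ℕ, 1 ≤ k → ∀ d : ℝ, 0 < d → d ≤ 1 → ∀ t : ℝ, 1 ≤ t → t ≤ 16 * k →
      ∃ c : ℝ, 0 < c ∧ ∀ A : Finset ℤ, (0 : ℤ) ∉ A → ∃ S ⊆ A,
        (AddBk k S ∧ c * (A.card : ℝ) ^
          ((1 + d * Real.log k / (10 ^ 5 * (3 + Real.log t))) / (2 * (k : ℝ) - 1)) ≤ S.card) ∨
        (MulBk k S ∧ c * (A.card : ℝ) ^ ((1 - d) * saving k t / (2 * k)) ≤ S.card)) :=
  ⟨fun K => Pool.Agent.H64.ES.Better.decomp' K,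
    fun J => Pool.Agent.H64.ES.decomp2 Pool.Agent.H64.ES.parts J,
    fun m hm e he he1 A P Q hA h0 hP hQ =>
      Pool.Agent.H64.ES.energy_part Pool.Agent.H64.ES.parts m hm e he he1 A P Q hA h0 hP hQ,
    fun ι m hm e he he1 R hR x h0 P Q S hP hQ hS =>
      Pool.Agent.H64.ES.dep_part ι m hm e he he1 R hR x h0 P Q S hP hQ hS,
    fun k hk d hd hd1 t ht htk => by
      obtain ⟨C, hC, h⟩ := Pool.Agent.H64.ES.Diff.few_point_dil2 k hk d hd hd1 t ht htk
      refine ⟨C, hC, fun A hA u hu => ?_⟩
      have h1 := h A hA u hu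
      rw [tau_eq k hk, ← mul_div_assoc] at h1
      exact h1,
    fun k hk d hd hd1 t ht => by
      obtain ⟨C, hC, h⟩ := Pool.Agent.H64.ES.Diff.half_point2 k hk d hd hd1 t ht
      refine ⟨C, hC, fun A hA => (h A hA).imp id ?_⟩
      rintro ⟨I, hI, h1⟩
      refine ⟨I, hI, fun m hm htm i b hi x hx => ?_⟩
      have h2 := h1 m hm htm i b hi x hx
      rw [ktau_eq m hm, tau_eq m hm, ← mul_div_assoc] at h2
      exact h2,
    fun k hk d hd hd1 t ht htk => by
      obtain ⟨c, hc, h⟩ := Pool.Agent.H64.SD.Trade.bk_trade k hk d hd hd1 t ht htk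
      refine ⟨c, hc, fun A h0 => ?_⟩
      have h1 := h A h0
      have hk0 : (k : ℝ) ≠ 0 := by
        have : (1 : ℝ) ≤ k := by exact_mod_cast hk
        positivity
      have e1 : (1 - d) * (t / (32 * k)) * (1 + Real.log (16 * k / t)) =
          (1 - d) * saving k t / (2 * k) := by
        unfold saving
        field_simp
        ring
      rw [e1] at h1
      exact h1⟩

end Pool.Agent.Results.MP_120218_co.LowEnergyLogExponent
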