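import Mathlib
import Pool.Agent.H87.PT.MSum
import Pool.Agent.H87.PT.AlongE

/-!
# Few sums, many products, for every number of factors: a bound at every point

Let `s (k, t) = (t / 16) (1 + log (16 k / t))`, `1 ≤ t ≤ 16 k`; it increases from about `log k`
(`t = 1`) to `k` (`t = 16 k`). Let `A_i`, `P_i`, `Q_i`, `i ≤ k`, be finite sets of integers and
`W_i = exp (exp (10^9 / e)) |P_i| ^ e (|A_i + P_i| / |P_i|) ^ 16 (|P_i + Q_i| / √(|P_i| |Q_i|)) ^ 2000`.
EVERY nonzero integer has at most

`∏ |A_i| ^ (1 - s / k) W_i ^ ((3 + log t) s / k)`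

factorisations `x = a_1 ⋯ a_k`, `a_i ∈ A_i`. So the loss in the doubling `W_i` is bounded (`t` constant)
if one wants to save only `|A| ^ (c log k)`, and it is `W_i ^ (C log k)` for the best possible bound
(`t = 16 k`; this is a divisor bound for sets with few sums).

Consequences, for finite sets `A` of integers and `0 < κ ≤ 1`:

* if `A ⊆ B`, `m ≥ 2` and `V = exp (exp (10^9 / e)) |m B| ^ e (|m B| / |B|) ^ (2016 / ⌊log_2 m⌋)`, then
  every nonzero integer has at most `|A| ^ (k - s) V ^ ((3 + log t) s)` factorisations into `k` elements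
  of `A`, and `|A ^ k| ≥ (|A| / V ^ (3 + log t)) ^ s` if `0 ∉ A ≠ ∅`. For `t = 16 k` this is
  `|A| ^ (k (1 + β)) ≤ C |m A| ^ ε |A ^ k| |m A| ^ (k β)`, `β = 2016 (3 + log (16 k)) / ⌊log_2 m⌋`, the
  mirror image of the inequality `|A| ^ (k (1 + β)) ≤ |k A| |A ^ n| ^ (k β)`, `β = log (2 k - 1) / log n`,
  for sets with few products. As `V` does not depend on `k`: if `|m A| ≤ |A| ^ (1 + u)` and `|A|` is
  large then `|A ^ k| ≥ |A| ^ ((1 - κ) k)` for ALL `k ≤ c' m ^ (c κ / u)` at once;
* `A` is the disjoint union of a set `B` with `E_m (B) ≤ |A| ^ (2 m - 1 - j δ)` for `m ≥ 2 ^ j`, `j ≤ J`,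
  and a set in which every nonzero integer has at most
  `C |A| ^ (k - s + ε + 50000 (3 + log t) δ s)` factorisations, for all `k`, `ε`, `t`;
* sums and products along dense sets of tuples: for `k ≥ 4 / κ ^ 2` and EVERY set `G` of `k`-tuples
  of elements of `A`, `g = |G| / |A| ^ k`, `0 ∉ A`, the tuples in `G` have at least
  `c g ^ 2 |A| ^ (1 + κ log k / (800000 (3 + log t)))` different sums or at least
  `c g |A| ^ ((1 - κ) s (k, t))` different products. For instance `G = A_1 × ⋯ × A_k` for any sets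
  `A_i` of the same size (`A` is their union): sums `a_1 + ⋯ + a_k` and products `a_1 ⋯ a_k` of
  elements of different sets.

**Proof.** Entropy. Let `r` be uniform on the factorisations of `x` and expose the valuations of its
coordinates prime by prime. For one prime let `V_i` be the valuation of the `i`-th coordinate, `e_i` a
median-like value, `u_i` the probability of `V_i > e_i` and `Θ = ∑ u_i`. The potential of the `i`-th
coordinate (entropies of `a + p` and doublings, see `Pool.Agent.H87.LL`) pays for `1 / (3 + log t)` of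
the entropy of `V_i` except for the part `u_i (log (1 / u_i) - log t)`. On the other hand `∑ V_i` is
constant, so the entropy of `V` is smaller than `∑ H (V_i)` by the total correlation, which is

* at least `Θ (log (1 / Θ) - 1 / 2)` if `Θ < 1 / 4`: give every upward deviation the weight `2 / (3 Θ)`;
  upward deviations come with downward ones, and the weighted product measure has mass at most `1` on
  the tuples with the right sum;
* at least `0.19` and `(log Θ - log 4) / 2` if `Θ ≥ 1 / 4`: the product measure is a mixture of products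
  of fair coins, and Sperner's theorem bounds the mass of one value of the sum.

By concavity the first part is at most `Θ (log (k / Θ) - log t)`, and `s / k` times this is less than
the total correlation for every `Θ`. The small primes cost a bounded amount. The decomposition removes
pieces with few sums (Balog–Szemerédi–Gowers) as long as the additive energy grows fast at some scale.
For (3) one of the sets `2 ^ j B` has a small doubling. For (5) one finds a fibre of `G` with many
coordinates in one of the two parts.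
-/

set_option autoImplicit false

namespace Pool.Agent.Results.MP_120218_co.SumProductTradeoff

open Finset
open scoped Pointwise BigOperators

/-- The saving. -/
noncomputable def saving (k t : ℝ) : ℝ := t / 16 * (1 + Real.log (16 * k / t))

/-- The loss. -/
noncomputable def loss (e : ℝ) (A P Q : Finset ℤ) : ℝ :=
  Real.exp (Real.exp (10 ^ 9 / e)) * (P.card : ℝ) ^ e *
    (((A + P).card : ℝ) / P.card) ^ 16 *
    (((P + Q).card : ℝ) / √((P.card : ℝ) * Q.card)) ^ 2000

/-- The loss in terms of the number of `m`-fold sums. -/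
noncomputable def lossM (e : ℝ) (m : ℕ) (B : Finset ℤ) : ℝ :=
  Real.exp (Real.exp (10 ^ 9 / e)) *
    (((Fintype.piFinset fun _ : Fin m => B).image fun f => ∑ i, f i).card : ℝ) ^ e *
    ((((Fintype.piFinset fun _ : Fin m => B).image fun f => ∑ i, f i).card : ℝ) / B.card) ^
      (2016 / (Nat.log 2 m : ℝ))

theorem tau_eq (k : ℕ) (hk : 1 ≤ k) (t : ℝ) : Pool.Agent.H87.PT.tau k t = saving k t / k := by
  have : (k : ℝ) ≠ 0 := by
    have : (1 : ℝ) ≤ k := by exact_mod_cast hk
    positivity
  unfold Pool.Agent.H87.PT.tau saving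
  field_simp

theorem ktau_eq (k : ℕ) (hk : 1 ≤ k) (t : ℝ) :
    (k : ℝ) * Pool.Agent.H87.PT.tau k t = saving k t := by
  have : (k : ℝ) ≠ 0 := by
    have : (1 : ℝ) ≤ k := by exact_mod_cast hk
    positivity
  rw [tau_eq k hk]
  field_simp

theorem lossM_eq (e : ℝ) (m : ℕ) (B : Finset ℤ) : lossM e m B = Pool.Agent.H87.PT.VV e m B := by
  unfold lossM Pool.Agent.H87.PT.VV
  rw [Pool.Agent.H87.PT.nsmul_eq_image]

theorem result :
    -- (1) the number of factorisations of every nonzero integer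
    (∀ k : ℕ, 1 ≤ k → ∀ t : ℝ, 1 ≤ t → t ≤ 16 * k → ∀ e : ℝ, 0 < e → e ≤ 1 →
      ∀ A P Q : Fin k → Finset ℤ, (∀ i, (P i).Nonempty) → (∀ i, (Q i).Nonempty) →
      ∀ x : ℤ, x ≠ 0 →
        (((Fintype.piFinset A).filter fun f => ∏ i, f i = x).card : ℝ) ≤
          ∏ i, (((A i).card : ℝ) ^ (1 - saving k t / k) *
            loss e (A i) (P i) (Q i) ^ ((3 + Real.log t) * (saving k t / k)))) ∧
    -- (2) product sets
    (∀ k : ℕ, 1 ≤ k → ∀ t : ℝ, 1 ≤ t → t ≤ 16 * k → ∀ e : ℝ, 0 < e → e ≤ 1 →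
      ∀ A P Q : Fin k → Finset ℤ, (∀ i, (A i).Nonempty) → (∀ i, (0 : ℤ) ∉ A i) →
      (∀ i, (P i).Nonempty) → (∀ i, (Q i).Nonempty) →
        ∏ i, (((A i).card : ℝ) / loss e (A i) (P i) (Q i) ^ (3 + Real.log t)) ^
            (saving k t / k) ≤
          (((Fintype.piFinset A).image fun f => ∏ i, f i).card : ℝ)) ∧
    -- (3) factorisations and product sets in terms of the number of `m`-fold sums
    (∀ k : ℕ, 1 ≤ k → ∀ t : ℝ, 1 ≤ t → t ≤ 16 * k → ∀ e : ℝ, 0 < e → e ≤ 1 → ∀ m : ℕ, 2 ≤ m →
      ∀ A B : Finset ℤ, B.Nonempty → A ⊆ B →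
      (∀ x : ℤ, x ≠ 0 →
        (((Fintype.piFinset fun _ : Fin k => A).filter fun f => ∏ i, f i = x).card : ℝ) ≤
          (A.card : ℝ) ^ (k - saving k t) * lossM e m B ^ ((3 + Real.log t) * saving k t)) ∧
      (A.Nonempty → (0 : ℤ) ∉ A →
        ((A.card : ℝ) / lossM e m B ^ (3 + Real.log t)) ^ saving k t ≤
          (((Fintype.piFinset fun _ : Fin k => A).image fun f => ∏ i, f i).card : ℝ))) ∧
    -- (4) few additive coincidences on all scales, or few factorisations
    (∀ (J : ℕ) (δ : ℝ), 0 < δ → ∃ C : ℕ → ℝ → ℝ → ℝ, (∀ k ε t, 0 < C k ε t) ∧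
      ∀ A : Finset ℤ, ∃ B ⊆ A,
        (∀ j ≤ J, ∀ m : ℕ, 2 ^ j ≤ m →
          ((((Fintype.piFinset fun _ : Fin m => B) ×ˢ (Fintype.piFinset fun _ : Fin m => B)).filter
            fun p => ∑ i, p.1 i = ∑ i, p.2 i).card : ℝ) ≤
              (A.card : ℝ) ^ (2 * (m : ℝ) - 1 - j * δ)) ∧
        ∀ k : ℕ, 1 ≤ k → ∀ ε : ℝ, 0 < ε → ε ≤ 1 → ∀ t : ℝ, 1 ≤ t → t ≤ 16 * k →
        ∀ x : ℤ, x ≠ 0 →
          (((Fintype.piFinset fun _ : Fin k => A \ B).filter fun f => ∏ i, f i = x).card : ℝ) ≤
            C k ε t * (A.card : ℝ) ^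
              (k - saving k t + ε + 50000 * (3 + Real.log t) * δ * saving k t)) ∧
    -- (5) sums and products along a set of tuples
    (∀ κ : ℝ, 0 < κ → κ ≤ 1 → ∀ k : ℕ, 4 / κ ^ 2 ≤ k → ∀ t : ℝ, 2 ≤ t → t ≤ 16 * k →
      ∃ c : ℝ, 0 < c ∧ ∀ A : Finset ℤ, (0 : ℤ) ∉ A → ∀ G : Finset (Fin k → ℤ),
        (∀ f ∈ G, ∀ i, f i ∈ A) →
        c * ((G.card : ℝ) / (A.card : ℝ) ^ k) ^ 2 *
            (A.card : ℝ) ^ (1 + κ * Real.log k / (800000 * (3 + Real.log t))) ≤
          ((G.image fun f => ∑ i, f i).card : ℝ) ∨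
        c * ((G.card : ℝ) / (A.card : ℝ) ^ k) * (A.card : ℝ) ^ ((1 - κ) * saving k t) ≤
          ((G.image fun f => ∏ i, f i).card : ℝ)) := by
  refine ⟨?_, ?_, ?_, ?_, ?_⟩
  · intro k hk t ht htk e he he1 A P Q hP hQ x hx
    have h := Pool.Agent.H87.PT.point k hk e he he1 t ht htk A P Q hP hQ x hx
    rw [tau_eq k hk] at h
    exact h
  · intro k hk t ht htk e he he1 A P Q hA h0 hP hQ
    have h := Pool.Agent.H87.PT.growth k hk e he he1 t ht htk A P Q hA h0 hP hQ
    rw [tau_eq k hk, Pool.Agent.H87.PT.prod_eq_image] at h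
    exact h
  · intro k hk t ht htk e he he1 m hm A B hB hAB
    refine ⟨fun x hx => ?_, fun hA h0 => ?_⟩
    · have h := Pool.Agent.H87.PT.mPoint k hk t ht htk e he he1 m hm A B hB hAB x hx
      rw [mul_sub, mul_one, ktau_eq k hk, ← lossM_eq] at h
      exact h
    · have h := Pool.Agent.H87.PT.mGrow k hk t ht htk e he he1 m hm A B hA hAB h0
      rw [ktau_eq k hk, ← lossM_eq] at h
      exact h
  · intro J δ hδ
    obtain ⟨C, hC, h⟩ := Pool.Agent.H87.PT.decG J δ hδ
    refine ⟨C, hC, fun A => ?_⟩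
    obtain ⟨B, hB, h1, h2⟩ := h A
    refine ⟨B, hB, h1, fun k hk ε hε hε1 t ht htk x hx => ?_⟩
    have h3 := h2 k hk ε hε hε1 t ht htk x hx
    rw [ktau_eq k hk] at h3
    exact h3
  · intro κ hκ hκ1 k hk t ht htk
    obtain ⟨c, hc, h⟩ := Pool.Agent.H87.PT.alongE κ hκ hκ1 k hk t ht htk
    refine ⟨c, hc, fun A h0 G hG => ?_⟩
    have hk1 : 1 ≤ k := by
      have h1 : (0 : ℝ) < k := lt_of_lt_of_le (by positivity) hk
      exact_mod_cast h1
    have h1 := h A h0 G hG
    rw [ktau_eq k hk1] at h1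
    exact h1

end Pool.Agent.Results.MP_120218_co.SumProductTradeoff
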