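import Pool.Agent.H166.SPD.Subsets

/-!
# Every finite set of integers is a union of a set growing in all models and two `Λ(2k)` sets

Let `k ≥ 2` and `ε, b > 0`. There are `M` and `K` such that every finite set `A` of integers is the
disjoint union of three sets `B`, `C`, `D` with the following properties.
* `B` grows superpolynomially under both operations in all Freiman models of order `k`: for all
  `m ≥ M` the `m`-fold additive energy of `φ (B)` is at most `|A| ^ (2 m - b)` for EVERY injective
  multiplicative Freiman homomorphism `φ` of order `k` from `B` to the nonzero integers, and the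
  `m`-fold multiplicative energy of `ψ (B)` is at most `|A| ^ (2 m - b)` for EVERY injective
  additive Freiman homomorphism `ψ` of order `k` from `B` to the integers.
* `C` is a multiplicative `Λ(2k)` set: the number of the coincidences
  `x_1 ⋯ x_k = y_1 ⋯ y_k` in `C`, with any nonnegative weights `c`, is at most
  `(K |A| ^ ε ∑ c(a)²) ^ k`; so `|S ^ (k)| ≥ (|S| / (K |A| ^ ε)) ^ k` for every subset `S` of `C`.
* `D` is an additive `Λ(2k)` set: the same with sums.

Proof. If the energy of order `2 ^ J` of some model of a set `S` is large, the model contains a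
large piece `D` with `|D + P|` small for a set `P` with small doubling (additively or
multiplicatively). In the first case the model, hence `D`, has few factorisations by the divisor
bound for sets with few sums; in the second case the model is a `Λ(2k)` set by the theorem on sets
with few products, and so is `D` since additive coincidences of order `k` are preserved. The pieces
are removed until the rest grows in all models; there are at most `|A| ^ ε` pieces, and the triangle
inequality in `L ^ (2k)` puts them together. For the multiplicative coincidences this is done with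
an integral logarithm. The extraction of the pieces, the divisor bound and the `Λ(2k)` theorem are
adapted from, or taken from, the library (`LowEnergyDecomposition`, `FewProductsLambdaSets` of this
problem); they treat one model (the identity) and the additive energy only.
-/

set_option autoImplicit false

namespace Pool.Agent.Results.MP_120218_co.ThreePartDecomposition

open Finset Pool.Agent.H166.SPD

theorem result (k : ℕ) (hk : 2 ≤ k) (ε b : ℝ) (hε : 0 < ε) (hb : 0 < b) :
    ∃ M : ℕ, 1 ≤ M ∧ ∃ K : ℝ, 0 < K ∧ ∀ A : Finset ℤ,
      ∃ B C D : Finset ℤ, B ∪ C ∪ D = A ∧ Disjoint B C ∧ Disjoint B D ∧ Disjoint C D ∧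
        -- the set `B` grows in all models
        0 ∉ B ∧ (∀ m : ℕ, M ≤ m → Grows k m ((A.card : ℝ) ^ (2 * (m : ℝ) - b)) B) ∧
        -- the set `C` has few multiplicative coincidences, and all its subsets have many products
        0 ∉ C ∧ (∀ c : ℤ → ℝ, (∀ a, 0 ≤ c a) →
          MulW k C c ≤ (K * (A.card : ℝ) ^ ε * ∑ a ∈ C, c a ^ 2) ^ k) ∧
        (∀ S ⊆ C, (S.card : ℝ) ^ k ≤ (K * (A.card : ℝ) ^ ε) ^ k *
          (((Fintype.piFinset fun _ : Fin k => S).image fun f => ∏ i, f i).card : ℝ)) ∧
        -- the set `D` has few additive coincidences, and all its subsets have many sums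
        (∀ c : ℤ → ℝ, (∀ a, 0 ≤ c a) →
          AddW k D c ≤ (K * (A.card : ℝ) ^ ε * ∑ a ∈ D, c a ^ 2) ^ k) ∧
        (∀ S ⊆ D, (S.card : ℝ) ^ k ≤ (K * (A.card : ℝ) ^ ε) ^ k *
          (((Fintype.piFinset fun _ : Fin k => S).image fun f => ∑ i, f i).card : ℝ)) := by
  obtain ⟨M, hM, K, hK, h⟩ := decomp k hk ε b hε hb
  refine ⟨M, hM, K, hK, fun A => ?_⟩
  obtain ⟨B, C, D, hu, hBC, hBD, hCD, h0B, h0C, hB, hC, hD⟩ := h A
  have hz : 0 ≤ K * (A.card : ℝ) ^ ε := by positivity
  exact ⟨B, C, D, hu, hBC, hBD, hCD, h0B, hB, h0C, hC,
    products_of_subset k (by omega) C _ hz hC, hD, sums_of_subset k (by omega) D _ hz hD⟩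

end Pool.Agent.Results.MP_120218_co.ThreePartDecomposition
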